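import Mathlib
import Pool.Agent.H80.ContactDefs
import Pool.Agent.H80.Contact2

open Pool.Agent.H80.Contact MvPowerSeries

theorem Pool.Agent.Results.MP_3155f9_ag.AllEquivalent.result (F : Type) [Field F] [CharP F 2]
    (a b c d : F) :
    ContactEquiv
      ![X 0 ^ 3 + X 1 ^ 5 + C a * X 1 ^ 6 + C b * X 1 ^ 8, X 0 ^ 2 * X 1 + X 0 * X 1 ^ 2]
      ![X 0 ^ 3 + X 1 ^ 5 + C c * X 1 ^ 6 + C d * X 1 ^ 8, X 0 ^ 2 * X 1 + X 0 * X 1 ^ 2] :=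
  char2_equiv a b c d
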